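import Pool.Agent.N180.ZlF

/-!
# Project ZL (helper180): renaming, additivity, full objects
-/

open Module Matrix

set_option autoImplicit false
set_option linter.unusedSectionVars false
set_option linter.unusedVariables false

namespace Pool.Agent.N776.ZL.F2

open Pool.Agent.N180.Zl Pool.Agent.N180.Zl.Ob Pool.Agent.N180.Zl.TFam

variable {K : Type*} [Field K] {ι : Type*} [Fintype ι] [DecidableEq ι]

/-- Multiplication on the right by a matrix. -/
def mr {m n l : Type*} [Fintype n] (U : Matrix n l K) : Matrix m n K →ₗ[K] Matrix m l K where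
  toFun M := M * U
  map_add' M N := Matrix.add_mul _ _ _
  map_smul' c M := Matrix.smul_mul _ _ _

lemma mr_apply {m n l : Type*} [Fintype n] (U : Matrix n l K) (M : Matrix m n K) :
    mr U M = M * U := rfl

variable {𝓣 : TFam K ι}

lemma HS_mul {n : ℕ} {A B D : Ob 𝓣} {M : Matrix (A.S ⊕ Fin n → ι) (B.S ⊕ Fin n → ι) K}
    {N : Matrix (B.S ⊕ Fin n → ι) (D.S ⊕ Fin n → ι) K} (hM : M ∈ HS n A B) (hN : N ∈ HS n B D) :
    M * N ∈ HS n A D := by
  obtain ⟨h1, h2, h3⟩ := hM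
  obtain ⟨h4, h5, h6⟩ := hN
  refine ⟨𝓣.Hm_mul h1 h4, ?_, ?_⟩
  · rw [← Matrix.mul_assoc, h2]
  · rw [Matrix.mul_assoc, h6]

/-- Isomorphic objects. -/
lemma hs_iso (n : ℕ) (D A B : Ob 𝓣) {U : Matrix (A.S ⊕ Fin n → ι) (B.S ⊕ Fin n → ι) K}
    {V : Matrix (B.S ⊕ Fin n → ι) (A.S ⊕ Fin n → ι) K} (hU : U ∈ HS n A B) (hV : V ∈ HS n B A)
    (hUV : U * V = A.sq n) (hVU : V * U = B.sq n) : Ob.hs n D A = Ob.hs n D B := by
  unfold Ob.hs pr
  refine nr_congr (mr U) ?_ ?_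
  · ext N
    constructor
    · rintro ⟨M, hM, rfl⟩
      exact HS_mul hM hU
    · intro hN
      refine ⟨N * V, HS_mul hN hV, ?_⟩
      rw [mr_apply, Matrix.mul_assoc, hVU, hN.2.2]
  · intro x hx
    rw [mr_apply]
    constructor
    · intro h y hy
      have h1 := h (V * y) (HS_mul hV hy)
      rw [Matrix.mul_assoc, ← Matrix.mul_assoc U V y, hUV, ← Matrix.mul_assoc, hx.2.2] at h1
      exact h1
    · intro h y hy
      rw [Matrix.mul_assoc]
      exact h _ (HS_mul hU hy)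

theorem rename (𝓣 : TFam K ι) : S_rename 𝓣 := by
  intro n D A B e he hq
  set E : A.S ⊕ Fin n ≃ B.S ⊕ Fin n := Equiv.sumCongr e (Equiv.refl _) with hE
  set T : (B.S ⊕ Fin n → ι) ≃ (A.S ⊕ Fin n → ι) := Equiv.arrowCongr E.symm (Equiv.refl ι) with hT
  have hTa : ∀ I, T I = I ∘ E := fun I => rfl
  set P : Matrix (A.S ⊕ Fin n → ι) (B.S ⊕ Fin n → ι) K :=
    (1 : Matrix (A.S ⊕ Fin n → ι) (A.S ⊕ Fin n → ι) K).submatrix id T with hP
  set Q : Matrix (B.S ⊕ Fin n → ι) (A.S ⊕ Fin n → ι) K :=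
    (1 : Matrix (A.S ⊕ Fin n → ι) (A.S ⊕ Fin n → ι) K).submatrix T id with hQ
  have hst : ∀ s, B.st n (E s) = A.st n s := by
    rintro (s | s)
    · exact he s
    · rfl
  have hPm : P ∈ 𝓣.Hm (A.st n) (B.st n) :=
    𝓣.Hm_reindex (Equiv.refl _) E (ε' := A.st n) (η' := B.st n) (fun _ => rfl) hst
      (𝓣.Hm_one (A.st n))
  have hQm : Q ∈ 𝓣.Hm (B.st n) (A.st n) :=
    𝓣.Hm_reindex E (Equiv.refl _) (ε' := B.st n) (η' := A.st n) hst (fun _ => rfl)
      (𝓣.Hm_one (A.st n))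
  have hPQ : P * Q = 1 := by
    rw [hP, hQ, Matrix.submatrix_mul_equiv, Matrix.one_mul, Matrix.submatrix_id_id]
  have hQP : Q * A.sq n * P = B.sq n := by
    have e1 : Q * A.sq n = (A.sq n).submatrix T id := by
      rw [hQ]
      have := Matrix.submatrix_mul_equiv (1 : Matrix (A.S ⊕ Fin n → ι) (A.S ⊕ Fin n → ι) K)
        (A.sq n) T (Equiv.refl _) id
      rw [Matrix.one_mul] at this
      exact this
    rw [e1, hP]
    have := Matrix.submatrix_mul_equiv (A.sq n)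
      (1 : Matrix (A.S ⊕ Fin n → ι) (A.S ⊕ Fin n → ι) K) T (Equiv.refl _) T
    rw [Matrix.mul_one] at this
    refine Eq.trans this ?_
    ext J I
    rw [Matrix.submatrix_apply, hTa, hTa, Ob.sq, Ob.sq, kr_apply, kr_apply]
    have e2 : ∀ J : B.S ⊕ Fin n → ι, (J ∘ E) ∘ Sum.inl = (J ∘ Sum.inl) ∘ e := fun J => rfl
    have e3 : ∀ J : B.S ⊕ Fin n → ι, (J ∘ E) ∘ Sum.inr = J ∘ Sum.inr := fun J => rfl
    rw [e2, e2, e3, e3, hq]
  have hAA := A.sq_idem n
  have hAm := A.sq_mem n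
  refine hs_iso n D A B (U := A.sq n * P) (V := Q * A.sq n) ⟨𝓣.Hm_mul hAm hPm, ?_, ?_⟩
    ⟨𝓣.Hm_mul hQm hAm, ?_, ?_⟩ ?_ ?_
  · rw [← Matrix.mul_assoc, hAA]
  · rw [← hQP]
    calc A.sq n * P * (Q * A.sq n * P) = A.sq n * (P * Q) * A.sq n * P := by
          simp only [Matrix.mul_assoc]
      _ = _ := by rw [hPQ, Matrix.mul_one, hAA]
  · rw [← hQP]
    calc Q * A.sq n * P * (Q * A.sq n) = Q * (A.sq n * (P * Q) * A.sq n) := by
          simp only [Matrix.mul_assoc]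
      _ = _ := by rw [hPQ, Matrix.mul_one, hAA]
  · rw [Matrix.mul_assoc, hAA]
  · calc A.sq n * P * (Q * A.sq n) = A.sq n * (P * Q) * A.sq n := by
          simp only [Matrix.mul_assoc]
      _ = _ := by rw [hPQ, Matrix.mul_one, hAA]
  · rw [← hQP]
    calc Q * A.sq n * (A.sq n * P) = Q * (A.sq n * A.sq n) * P := by
          simp only [Matrix.mul_assoc]
      _ = _ := by rw [hAA]

lemma full_sq (n : ℕ) {S : Type} [Fintype S] [DecidableEq S] (ε : S → Bool) :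
    (Ob.full 𝓣 ε).sq n = 1 := kr_one_one

lemma compl_sq (n : ℕ) (A : Ob 𝓣) :
    @Eq (Matrix (A.S ⊕ Fin n → ι) (A.S ⊕ Fin n → ι) K) (A.compl.sq n) (1 - A.sq n) := by
  have h1 : (1 : Matrix (A.S ⊕ Fin n → ι) (A.S ⊕ Fin n → ι) K) =
    kr (1 : Matrix (A.S → ι) (A.S → ι) K) (1 : Matrix (Fin n → ι) (Fin n → ι) K) :=
    kr_one_one.symm
  rw [h1]
  ext J I
  change (1 - A.q) _ _ * _ = _
  rw [Matrix.sub_apply, Matrix.sub_apply, kr_apply, Ob.sq, kr_apply, sub_mul]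
  rfl

/-- the splitting of `nr` -/
lemma nr_split {M : Type*} [AddCommGroup M] [Module K M] [Module.Finite K M]
    {X X1 X2 N : Submodule K M} (π : M →ₗ[K] M) (hX : X = X1 ⊔ X2)
    (h1 : ∀ x ∈ X1, π x = x) (h2 : ∀ x ∈ X2, π x = 0) (hN : ∀ x ∈ N, π x ∈ N) :
    nr X N = nr X1 N + nr X2 N := by
  unfold nr
  have h3 := Submodule.finrank_sup_add_finrank_inf_eq (X1.map N.mkQ) (X2.map N.mkQ)
  have h4 : X1.map N.mkQ ⊓ X2.map N.mkQ = ⊥ := by
    rw [eq_bot_iff]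
    rintro y ⟨⟨x1, hx1, e1⟩, ⟨x2, hx2, e2⟩⟩
    rw [Submodule.mem_bot, ← e1]
    have h5 : x1 - x2 ∈ N := by
      rw [← Submodule.Quotient.mk_eq_zero, ← Submodule.mkQ_apply, map_sub, e1, e2, sub_self]
    have h6 := hN _ h5
    rw [map_sub, h1 x1 hx1, h2 x2 hx2, sub_zero] at h6
    rw [Submodule.mkQ_apply, Submodule.Quotient.mk_eq_zero]
    exact h6
  rw [h4, finrank_bot, add_zero, ← Submodule.map_sup, ← hX] at h3
  exact h3

/-- additivity of the rank of the pairing -/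
lemma pr_split {m n : Type*} [Fintype m] [Fintype n] [DecidableEq n]
    (W : Submodule K (Matrix m n K)) (Y : Submodule K (Matrix n m K)) (p : Matrix n n K)
    (hp : p * p = p) (hW : ∀ x ∈ W, x * p ∈ W) (hY : ∀ y ∈ Y, p * y ∈ Y)
    (W1 W2 : Submodule K (Matrix m n K)) (Y1 Y2 : Submodule K (Matrix n m K))
    (h1 : ∀ x, x ∈ W1 ↔ x ∈ W ∧ x * p = x) (h2 : ∀ x, x ∈ W2 ↔ x ∈ W ∧ x * (1 - p) = x)
    (h3 : ∀ y, y ∈ Y1 ↔ y ∈ Y ∧ p * y = y) (h4 : ∀ y, y ∈ Y2 ↔ y ∈ Y ∧ (1 - p) * y = y) :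
    pr W Y = pr W1 Y1 + pr W2 Y2 := by
  have hp' : (1 - p) * (1 - p) = 1 - p := by
    rw [Matrix.sub_mul, Matrix.one_mul, Matrix.mul_sub, Matrix.mul_one, hp, sub_self, sub_zero]
  have hpp : (1 - p) * p = 0 := by
    rw [Matrix.sub_mul, Matrix.one_mul, hp, sub_self]
  have hW' : ∀ x ∈ W, x * (1 - p) ∈ W := by
    intro x hx
    rw [Matrix.mul_sub, Matrix.mul_one]
    exact W.sub_mem hx (hW x hx)
  have hY' : ∀ y ∈ Y, (1 - p) * y ∈ Y := by
    intro y hy
    rw [Matrix.sub_mul, Matrix.one_mul]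
    exact Y.sub_mem hy (hY y hy)
  unfold pr
  rw [nr_split (X := W) (X1 := W1) (X2 := W2) (mr p)]
  · congr 1
    · refine nr_congr LinearMap.id (Submodule.map_id _) ?_
      intro x hx
      rw [LinearMap.id_apply]
      constructor
      · intro h y hy
        have h5 := h (p * y) ((h3 _).2 ⟨hY y hy, by rw [← Matrix.mul_assoc, hp]⟩)
        rw [← Matrix.mul_assoc, ((h1 x).1 hx).2] at h5
        exact h5
      · intro h y hy
        exact h y ((h3 y).1 hy).1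
    · refine nr_congr LinearMap.id (Submodule.map_id _) ?_
      intro x hx
      rw [LinearMap.id_apply]
      constructor
      · intro h y hy
        have h5 := h ((1 - p) * y) ((h4 _).2 ⟨hY' y hy, by rw [← Matrix.mul_assoc, hp']⟩)
        rw [← Matrix.mul_assoc, ((h2 x).1 hx).2] at h5
        exact h5
      · intro h y hy
        exact h y ((h4 y).1 hy).1
  · apply le_antisymm
    · intro x hx
      have h5 : x = x * p + x * (1 - p) := by
        rw [← Matrix.mul_add, add_sub_cancel, Matrix.mul_one]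
      rw [h5]
      exact Submodule.add_mem_sup ((h1 _).2 ⟨hW x hx, by rw [Matrix.mul_assoc, hp]⟩)
        ((h2 _).2 ⟨hW' x hx, by rw [Matrix.mul_assoc, hp']⟩)
    · exact sup_le (fun x hx => ((h1 x).1 hx).1) (fun x hx => ((h2 x).1 hx).1)
  · intro x hx
    exact ((h1 x).1 hx).2
  · intro x hx
    rw [mr_apply, ← ((h2 x).1 hx).2, Matrix.mul_assoc, hpp, Matrix.mul_zero]
  · intro x hx y hy
    rw [mr_apply, Matrix.mul_assoc]
    exact hx _ (hY y hy)

theorem additive (𝓣 : TFam K ι) : S_add 𝓣 := by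
  intro n A
  have hAA := A.sq_idem n
  have hAm := A.sq_mem n
  have hcc := compl_sq n A
  have hff : (Ob.full 𝓣 A.ε).sq n = 1 := full_sq n A.ε
  refine pr_split (m := (Ob.one 𝓣).S ⊕ Fin n → ι) (n := A.S ⊕ Fin n → ι)
    (HS n (Ob.one 𝓣) (Ob.full 𝓣 A.ε)) (HS n (Ob.full 𝓣 A.ε) (Ob.one 𝓣)) (A.sq n)
    hAA ?_ ?_ (HS n (Ob.one 𝓣) A) (HS n (Ob.one 𝓣) A.compl) (HS n A (Ob.one 𝓣))
    (HS n A.compl (Ob.one 𝓣)) ?_ ?_ ?_ ?_
  · rintro x ⟨h1, h2, _⟩
    refine ⟨𝓣.Hm_mul h1 hAm, ?_, ?_⟩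
    · exact (Matrix.mul_assoc _ _ _).symm.trans (congrArg (fun z => z * A.sq n) h2)
    · rw [hff]
      exact Matrix.mul_one _
  · rintro y ⟨h1, _, h2⟩
    refine ⟨𝓣.Hm_mul hAm h1, ?_, ?_⟩
    · rw [hff]
      exact Matrix.one_mul _
    · exact (Matrix.mul_assoc _ _ _).trans (congrArg (fun z => A.sq n * z) h2)
  · intro x
    constructor
    · rintro ⟨h1, h2, h3⟩
      refine ⟨⟨h1, h2, ?_⟩, h3⟩
      rw [hff]
      exact Matrix.mul_one _
    · rintro ⟨⟨h1, h2, _⟩, h3⟩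
      exact ⟨h1, h2, h3⟩
  · intro x
    constructor
    · rintro ⟨h1, h2, h3⟩
      refine ⟨⟨h1, h2, ?_⟩, ?_⟩
      · rw [hff]
        exact Matrix.mul_one _
      · exact (congrArg (fun z => x * z) hcc.symm).trans h3
    · rintro ⟨⟨h1, h2, _⟩, h3⟩
      exact ⟨h1, h2, (congrArg (fun z => x * z) hcc).trans h3⟩
  · intro x
    constructor
    · rintro ⟨h1, h2, h3⟩
      refine ⟨⟨h1, ?_, h3⟩, h2⟩
      rw [hff]
      exact Matrix.one_mul _
    · rintro ⟨⟨h1, _, h2⟩, h3⟩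
      exact ⟨h1, h3, h2⟩
  · intro x
    constructor
    · rintro ⟨h1, h2, h3⟩
      refine ⟨⟨h1, ?_, h3⟩, ?_⟩
      · rw [hff]
        exact Matrix.one_mul _
      · exact (congrArg (fun z => z * x) hcc.symm).trans h2
    · rintro ⟨⟨h1, _, h2⟩, h3⟩
      exact ⟨h1, (congrArg (fun z => z * x) hcc).trans h3, h2⟩

/-- A matrix as a tensor. -/
def toT (K : Type*) [Field K] (S S' ι : Type*) :
    Matrix (S → ι) (S' → ι) K →ₗ[K] ((S ⊕ S' → ι) → K) where
  toFun M := fun I => M (I ∘ Sum.inl) (I ∘ Sum.inr)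
  map_add' M N := rfl
  map_smul' c M := rfl

lemma toT_apply {S S' : Type*} (M : Matrix (S → ι) (S' → ι) K) (I : S ⊕ S' → ι) :
    toT K S S' ι M I = M (I ∘ Sum.inl) (I ∘ Sum.inr) := rfl

lemma trace_eq {S S' : Type} [Fintype S] [DecidableEq S] [Fintype S'] [DecidableEq S']
    (x : Matrix (S → ι) (S' → ι) K) (y : Matrix (S' → ι) (S → ι) K) :
    (x * y).trace = ∑ I : S ⊕ S' → ι, toT K S S' ι x I * y (I ∘ Sum.inr) (I ∘ Sum.inl) := by
  rw [sum_sum, Matrix.trace]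
  refine Finset.sum_congr rfl fun J _ => ?_
  rw [Matrix.diag_apply, Matrix.mul_apply]
  refine Finset.sum_congr rfl fun L _ => ?_
  rw [toT_apply, Sum.elim_comp_inl, Sum.elim_comp_inr]

lemma nr_Hm {S S' : Type} [Fintype S] [DecidableEq S] [Fintype S'] [DecidableEq S']
    (ε : S → Bool) (η : S' → Bool) :
    nr (𝓣.Hm ε η) (orth (𝓣.Hm η ε)) = 𝓣.cn (Sum.elim ε (fun s => !(η s))) := by
  unfold TFam.cn
  refine nr_congr (toT K S S' ι) ?_ ?_
  · ext z
    constructor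
    · rintro ⟨M, hM, rfl⟩
      exact hM
    · intro hz
      have h1 : toT K S S' ι (Matrix.of fun J I => z (Sum.elim J I)) = z := by
        funext I
        rw [toT_apply, Matrix.of_apply, Sum.elim_comp_inl_inr]
      refine ⟨Matrix.of fun J I => z (Sum.elim J I), ?_, h1⟩
      change toT K S S' ι (Matrix.of fun J I => z (Sum.elim J I)) ∈
        𝓣.C (Sum.elim ε (fun s => !(η s)))
      rw [h1]
      exact hz
  · intro x _
    constructor
    · intro h y hy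
      rw [trace_eq]
      refine h _ ?_
      refine 𝓣.reindex'' (Equiv.sumComm S' S) ?_ hy ?_
      · rintro (s | s)
        · change (!(!(η s))) = η s
          rw [Bool.not_not]
        · rfl
      · intro I
        rfl
    · intro h w hw
      have h1 := h (Matrix.of fun J I => w (Sum.elim I J)) (by
        refine 𝓣.reindex'' (Equiv.sumComm S S') ?_ hw ?_
        · rintro (s | s)
          · rfl
          · change η s = (!(!(η s)))
            rw [Bool.not_not]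
        · intro I
          rw [Matrix.of_apply]
          congr 1
          funext s
          rcases s with s | s <;> rfl)
      rw [trace_eq] at h1
      simpa only [Matrix.of_apply, Sum.elim_comp_inl_inr] using h1

theorem fullcn (𝓣 : TFam K ι) : S_full 𝓣 := by
  intro n S S' _ _ _ _ ε ε'
  rw [← nr_Hm]
  have h1 : ∀ {S S' : Type} [Fintype S] [Fintype S'] [DecidableEq S] [DecidableEq S']
      (ε : S → Bool) (ε' : S' → Bool), HS n (Ob.full 𝓣 ε) (Ob.full 𝓣 ε') =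
        𝓣.Hm ((Ob.full 𝓣 ε).st n) ((Ob.full 𝓣 ε').st n) := by
    intro S S' _ _ _ _ ε ε'
    ext x
    constructor
    · exact fun h => h.1
    · intro h
      refine ⟨h, ?_, ?_⟩
      · rw [full_sq]
        exact Matrix.one_mul _
      · rw [full_sq]
        exact Matrix.mul_one _
  unfold Ob.hs pr
  rw [h1, h1]

end Pool.Agent.N776.ZL.F2
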